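import Mathlib

/-!
Combinatorial preliminaries: the index set `I` of order type omega one, uniform ultrafilters on it,
and maximal almost disjoint families of homogeneous sequences.
-/

namespace Pool.Agent.MP_f2a227_gt.H71

open Cardinal Set

/-- The first uncountable ordinal, as a linearly ordered type. -/
abbrev I : Type := (Cardinal.aleph 1).ord.ToType

theorem mk_I : #I = ℵ₁ := Cardinal.mk_ord_toType _

theorem countable_Iio (i : I) : (Iio i).Countable :=
  Cardinal.le_aleph0_iff_set_countable.1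
    (Cardinal.lt_aleph_one_iff.1 (by simpa using Cardinal.mk_Iio_lt i (by simp)))

theorem not_countable_iff {α : Type} (s : Set α) : ¬ s.Countable ↔ ℵ₁ ≤ #s := by
  rw [← Cardinal.le_aleph0_iff_set_countable, ← Cardinal.lt_aleph_one_iff, not_lt]

theorem univ_not_countable : ¬ (univ : Set I).Countable := by
  rw [not_countable_iff, Cardinal.mk_univ, mk_I]

instance : Nonempty I := by
  by_contra h
  rw [not_nonempty_iff] at h
  exact univ_not_countable (Set.to_countable _)

theorem exists_inj_of_not_countable {α : Type} {s : Set α} (hs : ¬ s.Countable) :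
    ∃ g : I → α, Function.Injective g ∧ ∀ i, g i ∈ s := by
  rw [not_countable_iff, ← mk_I] at hs
  obtain ⟨e⟩ := hs
  exact ⟨fun i => (e i).1, Subtype.val_injective.comp e.injective, fun i => (e i).2⟩

theorem exists_injOn_of_le {α : Type} {s : Set α} (hs : #s ≤ ℵ₁) :
    ∃ g : α → I, InjOn g s := by
  classical
  rw [← mk_I] at hs
  obtain ⟨e⟩ := hs
  refine ⟨fun x => if h : x ∈ s then e ⟨x, h⟩ else Classical.arbitrary I, ?_⟩
  intro x hx y hy hxy
  simp only [hx, hy, dif_pos] at hxy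
  exact congrArg Subtype.val (e.injective hxy)

theorem mk_biUnion_le {α β : Type} {s : Set α} (hs : #s ≤ ℵ₁) (A : α → Set β)
    (hA : ∀ x ∈ s, #(A x) ≤ ℵ₁) : #(⋃ x ∈ s, A x) ≤ ℵ₁ := by
  have h1 : (⋃ x ∈ s, A x) = ⋃ x : s, A x := by
    ext y; simp
  rw [h1]
  refine (Cardinal.mk_iUnion_le_sum_mk).trans ?_
  refine (Cardinal.sum_le_sum _ (fun _ => ℵ₁) fun x : s => hA x x.2).trans ?_
  rw [Cardinal.sum_const']
  exact (mul_le_mul_left hs _).trans (Cardinal.mul_eq_self (Cardinal.aleph0_le_aleph 1)).le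

theorem mk_range_le_one {β : Type} (f : I → β) : #(range f) ≤ ℵ₁ :=
  Cardinal.mk_range_le.trans mk_I.le

theorem mk_union_le_one {β : Type} {s t : Set β} (hs : #s ≤ ℵ₁) (ht : #t ≤ ℵ₁) :
    #(s ∪ t : Set β) ≤ ℵ₁ :=
  (Cardinal.mk_union_le s t).trans
    ((add_le_add hs ht).trans (Cardinal.add_eq_self (Cardinal.aleph0_le_aleph 1)).le)

/-- An ultrafilter all of whose members are uncountable. -/
def Unif (D : Ultrafilter I) : Prop := ∀ A ∈ D, ¬ A.Countable

theorem Unif.compl_mem {D : Ultrafilter I} (hD : Unif D) {A : Set I} (hA : A.Countable) :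
    Aᶜ ∈ D :=
  Ultrafilter.compl_mem_iff_notMem.2 fun h => hD A h hA

theorem exists_unif {J : Set I} (hJ : ¬ J.Countable) : ∃ D : Ultrafilter I, Unif D ∧ J ∈ D := by
  have : (Filter.cocountable ⊓ Filter.principal J).NeBot := by
    rw [Filter.inf_principal_neBot_iff]
    intro U hU
    rw [Filter.mem_cocountable] at hU
    by_contra h
    rw [not_nonempty_iff_eq_empty] at h
    refine hJ (hU.mono fun x hx => ?_)
    intro hxU
    have : x ∈ U ∩ J := ⟨hxU, hx⟩
    rw [h] at this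
    exact this
  obtain ⟨D, hD⟩ := Ultrafilter.exists_le (Filter.cocountable ⊓ Filter.principal J)
  refine ⟨D, fun A hA hc => ?_, ?_⟩
  · have h1 : Aᶜ ∈ D := (le_trans hD inf_le_left) (by simpa [Filter.mem_cocountable] using hc)
    exact Ultrafilter.compl_mem_iff_notMem.1 h1 hA
  · exact (le_trans hD inf_le_right) (Filter.mem_principal_self J)

theorem unif_not_countable {J : Set I} (hJ : ¬ J.Countable) :
    ¬ {D : Ultrafilter I | Unif D ∧ J ∈ D}.Countable := by
  have h1 : #(I × I) ≤ #J := by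
    rw [Cardinal.mk_prod, Cardinal.lift_id, mk_I, Cardinal.mul_eq_self (Cardinal.aleph0_le_aleph 1)]
    exact (not_countable_iff J).1 hJ
  obtain ⟨e⟩ := h1
  let h : I × I → I := fun p => (e p).1
  have hh : Function.Injective h := Subtype.val_injective.comp e.injective
  have hk : ∀ k : I, ¬ (range fun i => h (k, i)).Countable := by
    intro k hc
    refine univ_not_countable ?_
    rw [← image_univ] at hc
    refine countable_of_injective_of_countable_image ?_ hc
    intro a _ b _ hab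
    exact (Prod.ext_iff.1 (hh hab)).2
  choose D hD hDk using fun k => exists_unif (hk k)
  have hinj : Function.Injective D := by
    intro k k' hkk
    have h2 : (range fun i => h (k, i)) ∩ (range fun i => h (k', i)) ∈ D k :=
      Filter.inter_mem (hDk k) (hkk ▸ hDk k')
    obtain ⟨x, ⟨i, hi⟩, ⟨j, hj⟩⟩ := Ultrafilter.nonempty_of_mem h2
    exact (Prod.ext_iff.1 (hh (hi.trans hj.symm))).1
  intro hc
  refine univ_not_countable ?_
  refine countable_of_injective_of_countable_image (f := D) hinj.injOn (hc.mono ?_)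
  rintro _ ⟨k, -, rfl⟩
  refine ⟨hD k, Filter.mem_of_superset (hDk k) ?_⟩
  rintro _ ⟨i, rfl⟩
  exact (e (k, i)).2

theorem exists_disjoint_sets {Φ : Set (Ultrafilter I)} (hΦ : Φ.Finite) :
    ∃ C : Ultrafilter I → Set I, (∀ D, C D ∈ D) ∧
      ∀ D ∈ Φ, ∀ D' ∈ Φ, D ≠ D' → Disjoint (C D) (C D') := by
  have hd : Φ.PairwiseDisjoint fun D : Ultrafilter I => (D : Filter I) := by
    intro D _ D' _ hne
    exact Ultrafilter.disjoint_iff_not_le.2 fun h => hne (Ultrafilter.coe_le_coe.1 h)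
  obtain ⟨s, hs, hsd⟩ := hd.exists_mem_filter hΦ
  exact ⟨s, hs, fun D hD D' hD' hne => hsd hD hD' hne⟩

/-- Properties of a maximal almost disjoint family of homogeneous injective sequences in `S`. -/
def IsMad {α Λ : Type} (lv : α → Λ) (S : Set α) (𝒜 : Set (I → α)) : Prop :=
  (∀ f ∈ 𝒜, Function.Injective f ∧ (∀ i, f i ∈ S) ∧ ∃ s, ∀ i, lv (f i) = s) ∧
  (∀ f ∈ 𝒜, ∀ g ∈ 𝒜, f ≠ g → {i | f i ∈ range g}.Countable) ∧
  ∀ S' ⊆ S, ¬ S'.Countable → (∃ s, ∀ x ∈ S', lv x = s) → ∃ f ∈ 𝒜, ¬ {i | f i ∈ S'}.Countable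

theorem exists_mad {α Λ : Type} (lv : α → Λ) (S : Set α) : ∃ 𝒜, IsMad lv S 𝒜 := by
  let P : Set (Set (I → α)) := {𝒜 |
    (∀ f ∈ 𝒜, Function.Injective f ∧ (∀ i, f i ∈ S) ∧ ∃ s, ∀ i, lv (f i) = s) ∧
    (∀ f ∈ 𝒜, ∀ g ∈ 𝒜, f ≠ g → {i | f i ∈ range g}.Countable)}
  obtain ⟨𝒜, h𝒜⟩ : ∃ m, Maximal (· ∈ P) m := by
    refine zorn_subset P fun c hc hch => ⟨⋃₀ c, ⟨?_, ?_⟩, fun s hs => subset_sUnion_of_mem hs⟩
    · rintro f ⟨A, hA, hf⟩
      exact (hc hA).1 f hf
    · rintro f ⟨A, hA, hf⟩ g ⟨B, hB, hg⟩ hne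
      rcases hch.total hA hB with h | h
      · exact (hc hB).2 f (h hf) g hg hne
      · exact (hc hA).2 f hf g (h hg) hne
  refine ⟨𝒜, h𝒜.prop.1, h𝒜.prop.2, ?_⟩
  intro S' hS' hc ⟨s, hs⟩
  by_contra hcon
  push Not at hcon
  obtain ⟨g, hg, hgS⟩ := exists_inj_of_not_countable hc
  have hmem : insert g 𝒜 ∈ P := by
    refine ⟨?_, ?_⟩
    · rintro f (rfl | hf)
      · exact ⟨hg, fun i => hS' (hgS i), s, fun i => hs _ (hgS i)⟩
      · exact h𝒜.prop.1 f hf
    · rintro f (rfl | hf) f' (rfl | hf') hne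
      · exact absurd rfl hne
      · refine countable_of_injective_of_countable_image hg.injOn
          (((hcon f' hf').image f').mono ?_)
        rintro _ ⟨i, ⟨k, hk⟩, rfl⟩
        exact ⟨k, by simp only [mem_ofPred_eq, hk]; exact hgS i, hk⟩
      · refine (hcon f hf).mono ?_
        rintro i ⟨k, hk⟩
        simp only [mem_ofPred_eq, ← hk]
        exact hgS k
      · exact h𝒜.prop.2 f hf f' hf' hne
  have hg𝒜 : g ∈ 𝒜 := h𝒜.le_of_ge hmem (subset_insert _ _) (mem_insert _ _)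
  refine univ_not_countable ((hcon g hg𝒜).mono fun i _ => hgS i)

end Pool.Agent.MP_f2a227_gt.H71
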