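import Pool.Agent.MP_f2a227_gt.H71.Space

/-!
Closed sets with countably many levels have countable subcovers.
-/

namespace Pool.Agent.MP_f2a227_gt.H71

open Cardinal Set

variable {L : Type}

/-- The levels of the limit points in a set. -/
def levels (F : Set (X L)) : Set Lev := {s | ∃ u ∈ F, IsLim u.1 ∧ lev u.1 = s}

theorem accumulate {F : Set (X L)} (hF : IsClosed F) {n : ℕ} {S : Set (T L)} (hS : S ⊆ R n)
    (hc : ¬ S.Countable) {s : Lev} (hs : ∀ x ∈ S, lev x = s)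
    (happ : ∀ a : Finset Lev,
      {x | x ∈ S ∧ ∃ V, x ∈ V ∧ ∀ y ∈ F, y.1 ∉ N V a}.Countable) :
    ¬ (levels F).Countable := by
  obtain ⟨f, hf, hJ⟩ := (mad_spec (R n)).2.2 S hS hc ⟨s, hs⟩
  obtain ⟨hinj, -, s', hs'⟩ := (mad_spec (R n)).1 f hf
  intro hcount
  refine unif_not_countable hJ ?_
  refine countable_of_injective_of_countable_image (f := fun D => Sum.inl D :: s') ?_
    (hcount.mono ?_)
  · intro D _ D' _ h
    simpa using h
  · rintro _ ⟨D, ⟨hD, hJD⟩, rfl⟩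
    let u : X L := ⟨T.lim f D s', n + 1, mem_R_succ.2 ⟨hf, hD, hs'⟩⟩
    refine ⟨u, ?_, ⟨f, D, s', rfl⟩, rfl⟩
    by_contra hu
    obtain ⟨V, a, h1, h2, h3⟩ := hF.isOpen_compl u hu
    have h4 : {i | f i ∈ S} ∩ {i | f i ∈ V} ∈ D := Filter.inter_mem hJD (h1 f D s' h2)
    refine hD _ h4 (((happ a).preimage_of_injOn hinj.injOn).mono ?_)
    intro i hi
    exact ⟨hi.1, V, hi.2, fun y hy hyN => h3 y hyN hy⟩

theorem exists_fiber {α β : Type} {S : Set α} (hS : ¬ S.Countable) (g : α → β)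
    (hg : (g '' S).Countable) : ∃ b, ¬ {x | x ∈ S ∧ g x = b}.Countable := by
  by_contra h
  push Not at h
  refine hS ((hg.biUnion fun b _ => h b).mono fun x hx => ?_)
  exact mem_biUnion (mem_image_of_mem g hx) ⟨hx, rfl⟩

theorem lims_countable {F : Set (X L)} (hF : IsClosed F) (hl : (levels F).Countable) :
    {u | u ∈ F ∧ IsLim u.1}.Countable := by
  by_contra hc
  obtain ⟨s, h1⟩ := exists_fiber hc (fun u => lev u.1) (hl.mono (by
    rintro _ ⟨u, hu, rfl⟩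
    exact ⟨u, hu.1, hu.2, rfl⟩))
  obtain ⟨n, h2⟩ := exists_fiber h1 (fun u => u.2.choose) (to_countable _)
  refine accumulate hF (n := n) (s := s) (S := Subtype.val '' _) ?_
    (fun h => h2 (countable_of_injective_of_countable_image Subtype.val_injective.injOn h)) ?_ ?_ hl
  · rintro _ ⟨u, hu, rfl⟩
    exact hu.2 ▸ u.2.choose_spec
  · rintro _ ⟨u, hu, rfl⟩
    exact hu.1.2
  · intro a
    refine countable_empty.mono ?_
    rintro _ ⟨⟨u, hu, rfl⟩, V, hV, h⟩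
    exact h u hu.1.1.1 (Or.inl hV)

theorem avoid_countable {S : Set (List (Act L))} {r : ℕ}
    (h : ∀ ξ : Lev, {q | q ∈ S ∧ ∃ e ∈ q.drop r, e.1 = ξ}.Countable) (a : Finset Lev) :
    {q | q ∈ S ∧ q ∉ G a (q.take r)}.Countable := by
  refine (a.countable_toSet.biUnion fun ξ _ => h ξ).mono ?_
  rintro q ⟨hq, hG⟩
  by_contra hcon
  refine hG ⟨q.drop r, (List.take_append_drop r q).symm, fun e he hm => hcon ?_⟩
  exact mem_biUnion (Finset.mem_coe.2 hm) ⟨hq, e, he, rfl⟩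

theorem thin {F U : Set (X L)} (hF : IsClosed F) (hl : (levels F).Countable) (hU : IsOpen U)
    {k : ℕ} (hk : ∀ p : List (Act L), p.length < k → pt p ∈ F → pt p ∈ U)
    {S : Set (List (Act L))} (hS : ∀ q ∈ S, q.length = k ∧ pt q ∈ F ∧ pt q ∉ U) :
    ∀ r ≤ k, (∀ ξ : Lev, {q | q ∈ S ∧ ∃ e ∈ q.drop r, e.1 = ξ}.Countable) → S.Countable := by
  have fib : ∀ r ≤ k, (∀ ξ : Lev, {q | q ∈ S ∧ ∃ e ∈ q.drop r, e.1 = ξ}.Countable) →
      ∀ p, {q | q ∈ S ∧ q.take r = p}.Countable := by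
    intro r hr h p
    rcases Nat.lt_or_eq_of_le hr with hlt | rfl
    · by_contra hc
      have near : ∀ O : Set (X L), IsOpen O → pt p ∈ O → ∃ q ∈ S, pt q ∈ O := by
        intro O hO hp
        obtain ⟨V, a, -, h2, h3⟩ := hO _ hp
        by_contra hcon
        refine hc ((avoid_countable h a).mono ?_)
        intro q hq
        refine ⟨hq.1, fun hG => hcon ⟨q, hq.1, ?_⟩⟩
        exact h3 _ (Or.inr ⟨q, rfl, Or.inl ⟨p, h2, hq.2 ▸ hG⟩⟩)
      have hpF : pt p ∈ F := by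
        by_contra hp
        obtain ⟨q, hq, hqF⟩ := near _ hF.isOpen_compl hp
        exact hqF (hS q hq).2.1
      obtain ⟨q, hq, -⟩ := near _ isOpen_univ (mem_univ _)
      have hlen : p.length < k := by
        obtain ⟨q, hq⟩ : {q | q ∈ S ∧ q.take r = p}.Nonempty := by
          by_contra h0
          rw [not_nonempty_iff_eq_empty] at h0
          exact hc (h0 ▸ countable_empty)
        rw [← hq.2, List.length_take]
        omega
      obtain ⟨q, hq, hqU⟩ := near _ hU (hk p hlen hpF)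
      exact (hS q hq).2.2 hqU
    · refine (countable_singleton p).mono fun q hq => ?_
      rw [mem_singleton_iff, ← hq.2, ← (hS q hq.1).1, List.take_length]
  intro r
  induction r with
  | zero =>
    intro hr h
    refine (fib 0 hr h []).mono ?_
    intro q hq
    exact ⟨hq, rfl⟩
  | succ r ih =>
    intro hr h
    have hfib := fib _ hr h
    have hcl : ∀ s : Lev, {p | p ∈ List.take (r + 1) '' S ∧ lev (T.pat p) = s}.Countable := by
      intro s
      by_contra hc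
      refine accumulate hF (n := 0) (s := s)
        (S := T.pat '' {p | p ∈ List.take (r + 1) '' S ∧ lev (T.pat p) = s}) ?_ ?_ ?_ ?_ hl
      · rintro _ ⟨p, -, rfl⟩
        exact ⟨p, rfl⟩
      · refine fun h' => hc (countable_of_injective_of_countable_image ?_ h')
        intro p _ p' _ hp
        exact pat_inj hp
      · rintro _ ⟨p, hp, rfl⟩
        exact hp.2
      · intro a
        refine ((avoid_countable h a).image fun q => T.pat (q.take (r + 1))).mono ?_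
        rintro _ ⟨⟨_, ⟨⟨q, hq, rfl⟩, -⟩, rfl⟩, V, hV, hy⟩
        refine ⟨q, ⟨hq, fun hG => hy (pt q) (hS q hq).2.1 ?_⟩, rfl⟩
        exact Or.inr ⟨q, rfl, Or.inl ⟨_, hV, hG⟩⟩
    refine ih (by omega) fun ξ => ?_
    have h2 : (⋃ t : ℕ, ⋃ p ∈ {p | p ∈ List.take (r + 1) '' S ∧ lev (T.pat p) = Sum.inr t :: ξ},
        {q | q ∈ S ∧ q.take (r + 1) = p}).Countable :=
      countable_iUnion fun t => (hcl _).biUnion fun p _ => hfib p
    refine ((h ξ).union h2).mono ?_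
    rintro q ⟨hq, e, he, rfl⟩
    have hlen : r < q.length := by
      rw [(hS q hq).1]
      omega
    rw [List.drop_eq_getElem_cons hlen] at he
    rcases List.mem_cons.1 he with rfl | he
    · refine Or.inr (mem_iUnion.2 ⟨sz (q.take (r + 1)), mem_biUnion (x := q.take (r + 1))
        ⟨⟨q, hq, rfl⟩, ?_⟩ ⟨hq, rfl⟩⟩)
      rw [lev_pat, List.take_succ_eq_append_getElem hlen, lastLev_concat]
    · exact Or.inl ⟨hq, e, he, rfl⟩

theorem exists_countable_cover {α : Type} {𝒰 : Set (Set α)} {C : Set α} (hC : C.Countable)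
    (h : C ⊆ ⋃₀ 𝒰) : ∃ 𝒱 ⊆ 𝒰, 𝒱.Countable ∧ C ⊆ ⋃₀ 𝒱 := by
  choose! g hg hx using fun x (hx : x ∈ C) => h hx
  refine ⟨g '' C, ?_, hC.image g, fun x hx' => ⟨g x, mem_image_of_mem g hx', hx x hx'⟩⟩
  rintro _ ⟨x, hx', rfl⟩
  exact hg x hx'

theorem countable_subcover {F : Set (X L)} (hF : IsClosed F) (hl : (levels F).Countable)
    {𝒰 : Set (Set (X L))} (h𝒰 : ∀ U ∈ 𝒰, IsOpen U) (hc : F ⊆ ⋃₀ 𝒰) :
    ∃ 𝒱 ⊆ 𝒰, 𝒱.Countable ∧ F ⊆ ⋃₀ 𝒱 := by
  have hp : ∀ k : ℕ, ∃ 𝒱 ⊆ 𝒰, 𝒱.Countable ∧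
      ∀ p : List (Act L), p.length < k → pt p ∈ F → pt p ∈ ⋃₀ 𝒱 := by
    intro k
    induction k with
    | zero => exact ⟨∅, empty_subset _, countable_empty, fun p hp => absurd hp (by omega)⟩
    | succ k ih =>
      obtain ⟨𝒱, h1, h2, h3⟩ := ih
      have h4 : {q : List (Act L) | q.length = k ∧ pt q ∈ F ∧ pt q ∉ ⋃₀ 𝒱}.Countable := by
        refine thin hF hl (isOpen_sUnion fun U hU => h𝒰 U (h1 hU)) h3 (fun q hq => hq) k le_rfl ?_
        intro ξ
        refine countable_empty.mono ?_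
        rintro q ⟨hq, e, he, -⟩
        rw [← hq.1, List.drop_length] at he
        cases he
      obtain ⟨𝒲, h5, h6, h7⟩ := exists_countable_cover (𝒰 := 𝒰) (h4.image pt) (by
        rintro _ ⟨q, hq, rfl⟩
        exact hc hq.2.1)
      refine ⟨𝒱 ∪ 𝒲, union_subset h1 h5, h2.union h6, fun p hp hpF => ?_⟩
      rw [sUnion_union]
      by_cases h : pt p ∈ ⋃₀ 𝒱
      · exact Or.inl h
      · rcases Nat.lt_or_eq_of_le (Nat.lt_succ_iff.1 hp) with h' | h'
        · exact absurd (h3 p h' hpF) h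
        · exact Or.inr (h7 ⟨p, ⟨h', hpF, h⟩, rfl⟩)
  choose 𝒱 h1 h2 h3 using hp
  obtain ⟨𝒲, h5, h6, h7⟩ := exists_countable_cover (𝒰 := 𝒰) (lims_countable hF hl)
    fun u hu => hc hu.1
  refine ⟨𝒲 ∪ ⋃ k, 𝒱 k, union_subset h5 (iUnion_subset h1), h6.union (countable_iUnion h2), ?_⟩
  rintro ⟨x, n, hn⟩ hx
  cases n with
  | zero =>
    obtain ⟨p, rfl⟩ := hn
    obtain ⟨U, hU, hxU⟩ := h3 (p.length + 1) p (by omega) hx
    exact ⟨U, Or.inr (mem_iUnion.2 ⟨_, hU⟩), hxU⟩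
  | succ n =>
    obtain ⟨f, D, s, rfl, -⟩ := id hn
    obtain ⟨U, hU, hxU⟩ := h7 ⟨hx, f, D, s, rfl⟩
    exact ⟨U, Or.inl hU, hxU⟩

theorem main_cover {ι : Type} [Countable ι] {F : Set (X L)} (hF : IsClosed F)
    {𝒰 : Set (Set (X L))} (h𝒰 : ∀ U ∈ 𝒰, IsOpen U) (hc : F ⊆ ⋃₀ 𝒰)
    (D : ι → Set (Set (X L))) (hD : ⋃ a, D a = 𝒰) :
    ∃ V : ι → Set (Set (X L)), (∀ a, V a ⊆ D a ∧ (V a).Countable) ∧
      F ⊆ ⋃ a, closure (⋃₀ V a) := by
  classical
  by_cases hl : (levels F).Countable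
  · obtain ⟨𝒱, h1, h2, h3⟩ := countable_subcover hF hl h𝒰 hc
    refine ⟨fun a => 𝒱 ∩ D a, fun a => ⟨inter_subset_right, h2.mono inter_subset_left⟩, ?_⟩
    intro x hx
    obtain ⟨U, hU, hxU⟩ := h3 hx
    obtain ⟨a, ha⟩ := mem_iUnion.1 (hD ▸ h1 hU : U ∈ ⋃ a, D a)
    exact mem_iUnion.2 ⟨a, subset_closure ⟨U, ⟨hU, ha⟩, hxU⟩⟩
  · obtain ⟨a, ha⟩ : ∃ a, (levels (⋃₀ D a)).Infinite := by
      by_contra h
      push Not at h
      refine hl ((countable_iUnion fun a => (h a).countable).mono ?_)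
      rintro _ ⟨u, hu, h1, rfl⟩
      obtain ⟨U, hU, hxU⟩ := hc hu
      obtain ⟨a, ha⟩ := mem_iUnion.1 (hD ▸ hU : U ∈ ⋃ a, D a)
      exact mem_iUnion.2 ⟨a, u, ⟨U, ha, hxU⟩, h1, rfl⟩
    obtain ⟨K, hK, hKc, hKi⟩ := ha.exists_subset_countable_infinite
    have : Nonempty (X L) := ⟨pt []⟩
    choose! u hu hlim hlev using fun s (hs : s ∈ K) => hK hs
    obtain ⟨𝒲, h5, h6, h7⟩ := exists_countable_cover (𝒰 := D a) (hKc.image u) (by
      rintro _ ⟨s, hs, rfl⟩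
      exact hu s hs)
    have hdense : Dense (⋃₀ 𝒲) := by
      refine dense_of_infinite (isOpen_sUnion fun U hU => h𝒰 U ?_) (hKi.mono fun s hs => ?_)
      · exact hD ▸ mem_iUnion.2 ⟨a, h5 hU⟩
      · exact ⟨u s, h7 (mem_image_of_mem u hs), hlim s hs, hlev s hs⟩
    refine ⟨fun b => if b = a then 𝒲 else ∅, fun b => ?_, fun x _ => mem_iUnion.2 ⟨a, ?_⟩⟩
    · by_cases h : b = a
      · subst h
        simp only [if_true]
        exact ⟨h5, h6⟩
      · simp only [h, if_false]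
        exact ⟨empty_subset _, countable_empty⟩
    · simp only [if_true]
      exact hdense x

end Pool.Agent.MP_f2a227_gt.H71
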