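import Pool.Agent.MP_f2a227_gt.H71.Basic

/-!
The potential points, their levels, the ranks, and the separation of points in the skeleton.
-/

namespace Pool.Agent.MP_f2a227_gt.H71

open Cardinal Set

/-- Levels. -/
abbrev Lev : Type := List (Ultrafilter I ⊕ ℕ)

/-- Potential points. -/
inductive T (L : Type) : Type
  | bot
  | atom (l : L)
  | raw (d : List (Lev × Finset Lev)) (g : ℕ → T L)
  | lim (f : I → T L) (D : Ultrafilter I) (s : Lev)

/-- One entry of a pattern. -/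
abbrev Act (L : Type) : Type := Lev × T L × Finset Lev

variable {L : Type}

/-- A pattern as a potential point. -/
def T.pat (p : List (Act L)) : T L :=
  T.raw (p.map fun e => (e.1, e.2.2)) fun k => (p[k]?.map fun e => e.2.1).getD T.bot

theorem pat_inj {p q : List (Act L)} (h : T.pat p = T.pat q) : p = q := by
  simp only [T.pat, T.raw.injEq] at h
  obtain ⟨h1, h2⟩ := h
  have hl : p.length = q.length := by simpa using congrArg List.length h1
  refine List.ext_getElem hl fun k hp hq => ?_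
  have h3 := congrFun h2 k
  have h4 := congrArg (fun l => l[k]?) h1
  simp only [List.getElem?_eq_getElem hp, List.getElem?_eq_getElem hq, Option.map_some,
    Option.getD_some, List.getElem?_map, Option.some.injEq, Prod.mk.injEq] at h3 h4
  exact Prod.ext h4.1 (Prod.ext h3 h4.2)

theorem pat_ne_lim {p : List (Act L)} {f : I → T L} {D : Ultrafilter I} {s : Lev} :
    T.pat p ≠ T.lim f D s := by
  intro h
  cases h

/-- The level of the last entry. -/
def lastLev (p : List (Act L)) : Lev := (p.map Prod.fst).getLastD []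

/-- The total size of the finite sets in a pattern. -/
def sz (p : List (Act L)) : ℕ := (p.map fun e => e.2.2.card).sum

theorem lastLev_concat (p : List (Act L)) (e : Act L) : lastLev (p ++ [e]) = e.1 := by
  simp [lastLev]

theorem card_le_sz {p : List (Act L)} {e : Act L} (h : e ∈ p) : e.2.2.card ≤ sz p :=
  List.single_le_sum (fun _ _ => Nat.zero_le _) _ (List.mem_map.2 ⟨e, h, rfl⟩)

/-- The level of a potential point. -/
def lev : T L → Lev
  | .bot => []
  | .atom _ => []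
  | .raw d _ => Sum.inr (d.map fun e => e.2.card).sum :: (d.map Prod.fst).getLastD []
  | .lim _ D s => Sum.inl D :: s

theorem lev_pat (p : List (Act L)) : lev (T.pat p) = Sum.inr (sz p) :: lastLev p := by
  simp only [T.pat, lev, sz, lastLev, List.map_map]
  rfl

/-- Limit points. -/
def IsLim (u : T L) : Prop := ∃ f D s, u = T.lim f D s

/-- The chosen maximal almost disjoint family. -/
noncomputable def mad (S : Set (T L)) : Set (I → T L) := (exists_mad lev S).choose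

theorem mad_spec (S : Set (T L)) : IsMad lev S (mad S) := (exists_mad lev S).choose_spec

/-- The points of rank `n`. -/
def R : ℕ → Set (T L)
  | 0 => range T.pat
  | n + 1 => {u | ∃ f D s, u = T.lim f D s ∧ f ∈ mad (R n) ∧ Unif D ∧ ∀ i, lev (f i) = s}

theorem mem_R_succ {n : ℕ} {f : I → T L} {D : Ultrafilter I} {s : Lev} :
    T.lim f D s ∈ R (n + 1) ↔ f ∈ mad (R n) ∧ Unif D ∧ ∀ i, lev (f i) = s := by
  constructor
  · rintro ⟨f', D', s', h, h1⟩
    cases h
    exact h1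
  · intro h
    exact ⟨f, D, s, rfl, h⟩

theorem lim_notMem_R_zero {f : I → T L} {D : Ultrafilter I} {s : Lev} : T.lim f D s ∉ R 0 := by
  rintro ⟨p, h⟩
  cases h

theorem child_mem {n : ℕ} {f : I → T L} {D : Ultrafilter I} {s : Lev}
    (h : T.lim f D s ∈ R (n + 1)) (i : I) : f i ∈ R n :=
  ((mad_spec (R n)).1 f (mem_R_succ.1 h).1).2.1 i

theorem rank_unique : ∀ {n m : ℕ} {x : T L}, x ∈ R n → x ∈ R m → n = m
  | 0, 0, _, _, _ => rfl
  | 0, _ + 1, _, ⟨_, h⟩, ⟨_, _, _, h', _⟩ => by rw [h'] at h; cases h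
  | _ + 1, 0, _, ⟨_, _, _, h', _⟩, ⟨_, h⟩ => by rw [h'] at h; cases h
  | n + 1, m + 1, _, ⟨f, D, s, h, h1⟩, h2 => by
    subst h
    have i : I := Classical.arbitrary I
    have := rank_unique (child_mem (mem_R_succ.2 h1) i) (child_mem h2 i)
    omega

/-- Open sets of the skeleton. -/
def Op (V : Set (T L)) : Prop := ∀ f D s, T.lim f D s ∈ V → {i | f i ∈ V} ∈ D

theorem Op.inter {V V' : Set (T L)} (h : Op V) (h' : Op V') : Op (V ∩ V') :=
  fun f D s hx => Filter.inter_mem (h f D s hx.1) (h' f D s hx.2)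

theorem op_singleton (p : List (Act L)) : Op {T.pat p} := by
  intro f D s h
  cases h

theorem exists_pat_mem {V : Set (T L)} (hV : Op V) :
    ∀ (n : ℕ) (x : T L), x ∈ R n → x ∈ V → ∃ p, T.pat p ∈ V
  | 0, _, ⟨p, h⟩, hx => ⟨p, h ▸ hx⟩
  | n + 1, _, ⟨f, D, s, h, h1⟩, hx => by
    subst h
    obtain ⟨i, hi⟩ := Ultrafilter.nonempty_of_mem (hV f D s hx)
    exact exists_pat_mem hV n (f i) (child_mem (mem_R_succ.2 h1) i) hi

theorem exists_below : ∀ (n : ℕ) (z : T L), z ∈ R n →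
    ∃ B : Set (T L), z ∈ B ∧ Op B ∧ #B ≤ ℵ₁ ∧ ∀ x ∈ B, lev x <:+ lev z
  | 0, _, ⟨p, h⟩ => by
    subst h
    refine ⟨{T.pat p}, rfl, op_singleton p, ?_, ?_⟩
    · rw [Cardinal.mk_singleton]
      exact Cardinal.one_le_aleph0.trans (Cardinal.aleph0_le_aleph 1)
    · rintro x rfl
      exact List.suffix_refl _
  | n + 1, _, ⟨f, D, s, h, h1⟩ => by
    subst h
    choose B hB hO hC hL using fun i => exists_below n (f i) (child_mem (mem_R_succ.2 h1) i)
    refine ⟨{T.lim f D s} ∪ ⋃ i ∈ (univ : Set I), B i, Or.inl rfl, ?_, ?_, ?_⟩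
    · intro g E t hx
      rcases hx with hx | hx
      · cases hx
        refine Filter.mem_of_superset Filter.univ_mem fun i _ => Or.inr ?_
        exact mem_biUnion (mem_univ i) (hB i)
      · obtain ⟨i, -, hi⟩ := mem_iUnion₂.1 hx
        refine Filter.mem_of_superset (hO i g E t hi) fun j hj => Or.inr ?_
        exact mem_biUnion (mem_univ i) hj
    · refine mk_union_le_one ?_ (mk_biUnion_le ?_ _ fun i _ => hC i)
      · rw [Cardinal.mk_singleton]
        exact Cardinal.one_le_aleph0.trans (Cardinal.aleph0_le_aleph 1)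
      · rw [Cardinal.mk_univ, mk_I]
    · rintro x (hx | hx)
      · cases hx
        exact List.suffix_refl _
      · obtain ⟨i, -, hi⟩ := mem_iUnion₂.1 hx
        refine (hL i x hi).trans ?_
        rw [h1.2.2 i]
        exact List.suffix_cons _ _

/-- The sequence of a limit point. -/
def ch : T L → I → T L
  | .lim f _ _ => f
  | x => fun _ => x

/-- The ultrafilter of a limit point. -/
noncomputable def uf : T L → Ultrafilter I
  | .lim _ D _ => D
  | _ => pure (Classical.arbitrary I)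

/-- One step of the separation: large sets of children that are pairwise disjoint. -/
theorem exists_large {n : ℕ} {Φ : Set (Ultrafilter I)} (hΦ : Φ.Finite) {E Z : Set (T L)}
    (hE : E ⊆ R (n + 1)) (hc : #E ≤ ℵ₁) (hEΦ : ∀ e ∈ E, uf e ∈ Φ) (hZ : Z.Countable) :
    ∃ A : T L → Set I, (∀ e ∈ E, A e ∈ uf e) ∧ (∀ e ∈ E, ∀ i ∈ A e, ch e i ∉ Z) ∧
      ∀ e ∈ E, ∀ e' ∈ E, e ≠ e' → ∀ i ∈ A e, ∀ j ∈ A e', ch e i ≠ ch e' j := by
  obtain ⟨C, hC, hCd⟩ := exists_disjoint_sets hΦ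
  obtain ⟨g, hg⟩ := exists_injOn_of_le hc
  let bad : T L → Set I := fun e => {i | ch e i ∈ Z} ∪
    ⋃ e' ∈ {e' | e' ∈ E ∧ g e' < g e ∧ ch e ≠ ch e'}, {i | ch e i ∈ range (ch e')}
  have hmad : ∀ e ∈ E, ch e ∈ mad (R n) := by
    intro e he
    obtain ⟨f, D, s, rfl, h1, -⟩ := hE he
    exact h1
  have hinj : ∀ e ∈ E, Function.Injective (ch e) := fun e he =>
    ((mad_spec (R n)).1 _ (hmad e he)).1
  have hbad : ∀ e ∈ E, (bad e).Countable := by
    intro e he
    refine (hZ.preimage_of_injOn (hinj e he).injOn).union (Countable.biUnion ?_ ?_)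
    · refine countable_of_injective_of_countable_image (f := g) (hg.mono fun _ h => h.1)
        ((countable_Iio (g e)).mono ?_)
      rintro _ ⟨e', h, rfl⟩
      exact h.2.1
    · intro e' h
      exact (mad_spec (R n)).2.1 _ (hmad e he) _ (hmad e' h.1) h.2.2
  have key : ∀ e ∈ E, ∀ e' ∈ E, g e' < g e → ch e ≠ ch e' → ∀ i, i ∉ bad e → ∀ j,
      ch e i ≠ ch e' j := by
    intro e _ e' he' hlt hne i hi j hij
    exact hi (Or.inr (mem_biUnion (x := e') ⟨he', hlt, hne⟩ ⟨j, hij.symm⟩))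
  refine ⟨fun e => C (uf e) ∩ (bad e)ᶜ, ?_, ?_, ?_⟩
  · intro e he
    refine Filter.inter_mem (hC _) (Unif.compl_mem ?_ (hbad e he))
    obtain ⟨f, D, s, rfl, -, h1, -⟩ := hE he
    exact h1
  · intro e _ i hi hz
    exact hi.2 (Or.inl hz)
  · intro e he e' he' hne i hi j hj hij
    by_cases hch : ch e = ch e'
    · have huf : uf e ≠ uf e' := by
        intro h
        obtain ⟨f, D, s, rfl, -, -, h1⟩ := hE he
        obtain ⟨f', D', s', rfl, -, -, h2⟩ := hE he'
        change f = f' at hch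
        change D = D' at h
        subst hch h
        exact hne (by rw [← h1 i, ← h2 i])
      rw [← hch] at hij
      have := hinj e he hij
      subst this
      exact Set.disjoint_left.1 (hCd _ (hEΦ e he) _ (hEΦ e' he') huf) hi.1 hj.1
    · rcases lt_trichotomy (g e) (g e') with h | h | h
      · exact key e' he' e he h (Ne.symm hch) j hj.2 i hij.symm
      · exact hne (hg he he' h)
      · exact key e he e' he' h hch i hi.2 j hij

theorem separate {Φ : Set (Ultrafilter I)} (hΦ : Φ.Finite) : ∀ (n : ℕ) (E₁ E₂ : Set (T L)),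
    Disjoint E₁ E₂ → #(E₁ ∪ E₂ : Set (T L)) ≤ ℵ₁ → (∀ x ∈ E₁ ∪ E₂, ∃ m ≤ n, x ∈ R m) →
    ((E₁ ∪ E₂) \ R n).Countable → (∀ x ∈ E₁ ∪ E₂, ∀ D, Sum.inl D ∈ lev x → D ∈ Φ) →
    ∃ V₁ V₂ : Set (T L), E₁ ⊆ V₁ ∧ E₂ ⊆ V₂ ∧ Op V₁ ∧ Op V₂ ∧ Disjoint V₁ V₂ ∧
      ∀ x ∈ V₁ ∪ V₂, ∃ m ≤ n, x ∈ R m
  | 0, E₁, E₂, hd, _, hr, _, _ => by
    have hop : ∀ E ⊆ E₁ ∪ E₂, Op E := by
      intro E hE f D s h
      obtain ⟨m, hm, h1⟩ := hr _ (hE h)
      rw [Nat.le_zero.1 hm] at h1
      exact absurd h1 lim_notMem_R_zero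
    exact ⟨E₁, E₂, subset_rfl, subset_rfl, hop _ subset_union_left, hop _ subset_union_right, hd,
      hr⟩
  | n + 1, E₁, E₂, hd, hc, hr, hZ, hl => by
    have hEΦ : ∀ e ∈ (E₁ ∪ E₂) ∩ R (n + 1), uf e ∈ Φ := by
      rintro e ⟨he, f, D, s, rfl, -⟩
      exact hl _ he D List.mem_cons_self
    obtain ⟨A, hA, hAZ, hAd⟩ := exists_large hΦ (E := (E₁ ∪ E₂) ∩ R (n + 1)) inter_subset_right
      ((Cardinal.mk_le_mk_of_subset inter_subset_left).trans hc) hEΦ hZ
    let dn : Set (T L) → Set (T L) := fun E => (E \ R (n + 1)) ∪ ⋃ e ∈ E ∩ R (n + 1), ch e '' A e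
    have hdn : ∀ E x, x ∈ dn E ↔ (x ∈ E ∧ x ∉ R (n + 1)) ∨
        ∃ e, (e ∈ E ∧ e ∈ R (n + 1)) ∧ ∃ i ∈ A e, ch e i = x := by
      intro E x
      simp only [dn, mem_union, mem_sdiff, mem_iUnion₂, mem_inter_iff, mem_image, exists_prop]
    have hun : dn E₁ ∪ dn E₂ ⊆ dn (E₁ ∪ E₂) := by
      intro x hx
      rw [mem_union, hdn, hdn] at hx
      rw [hdn]
      rcases hx with (h | ⟨e, h, h'⟩) | (h | ⟨e, h, h'⟩)
      · exact Or.inl ⟨Or.inl h.1, h.2⟩
      · exact Or.inr ⟨e, ⟨Or.inl h.1, h.2⟩, h'⟩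
      · exact Or.inl ⟨Or.inr h.1, h.2⟩
      · exact Or.inr ⟨e, ⟨Or.inr h.1, h.2⟩, h'⟩
    have hch : ∀ e ∈ R (n + 1), ∀ i, ch e i ∈ (R n : Set (T L)) ∧ lev (ch e i) <:+ lev e := by
      rintro e ⟨f, D, s, rfl, h1⟩ i
      refine ⟨child_mem (mem_R_succ.2 h1) i, ?_⟩
      change lev (f i) <:+ _
      rw [h1.2.2 i]
      exact List.suffix_cons _ _
    obtain ⟨V₁, V₂, h1, h2, ho1, ho2, hV, hVr⟩ := separate hΦ n (dn E₁) (dn E₂) (by
      rw [Set.disjoint_left]
      intro x hx1 hx2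
      rw [hdn] at hx1 hx2
      rcases hx1 with h | ⟨e, h, i, hi, rfl⟩
      · rcases hx2 with h' | ⟨e', h', j, hj, rfl⟩
        · exact Set.disjoint_left.1 hd h.1 h'.1
        · exact hAZ e' ⟨Or.inr h'.1, h'.2⟩ j hj ⟨Or.inl h.1, h.2⟩
      · rcases hx2 with h' | ⟨e', h', j, hj, hij⟩
        · exact hAZ e ⟨Or.inl h.1, h.2⟩ i hi ⟨Or.inr h'.1, h'.2⟩
        · refine hAd e ⟨Or.inl h.1, h.2⟩ e' ⟨Or.inr h'.1, h'.2⟩ ?_ i hi j hj hij.symm
          rintro rfl
          exact Set.disjoint_left.1 hd h.1 h'.1) (by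
      refine (Cardinal.mk_le_mk_of_subset hun).trans (mk_union_le_one ?_ (mk_biUnion_le ?_ _ ?_))
      · exact (Cardinal.mk_le_mk_of_subset sdiff_subset).trans hc
      · exact (Cardinal.mk_le_mk_of_subset inter_subset_left).trans hc
      · exact fun e _ => (Cardinal.mk_le_mk_of_subset (image_subset_range _ _)).trans
          (mk_range_le_one _)) (by
      intro x hx
      rcases (hdn _ x).1 (hun hx) with h | ⟨e, h, i, -, rfl⟩
      · obtain ⟨m, hm, h1⟩ := hr x h.1
        refine ⟨m, ?_, h1⟩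
        rcases Nat.lt_or_eq_of_le hm with h2 | h2
        · omega
        · exact absurd (h2 ▸ h1) h.2
      · exact ⟨n, le_rfl, (hch e h.2 i).1⟩) (by
      refine hZ.mono fun x hx => ?_
      rcases (hdn _ x).1 (hun hx.1) with h | ⟨e, h, i, -, rfl⟩
      · exact h
      · exact absurd (hch e h.2 i).1 hx.2) (by
      intro x hx D hD
      rcases (hdn _ x).1 (hun hx) with h | ⟨e, h, i, -, rfl⟩
      · exact hl x h.1 D hD
      · exact hl e h.1 D ((hch e h.2 i).2.subset hD))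
    have hop : ∀ E V : Set (T L), E ⊆ E₁ ∪ E₂ → dn E ⊆ V → Op V → Op (V ∪ E ∩ R (n + 1)) := by
      intro E V hE hEV hV f D s hx
      rcases hx with hx | hx
      · exact Filter.mem_of_superset (hV f D s hx) fun i hi => Or.inl hi
      · refine Filter.mem_of_superset (hA _ ⟨hE hx.1, hx.2⟩) fun i hi => Or.inl (hEV ?_)
        exact (hdn _ _).2 (Or.inr ⟨_, hx, i, hi, rfl⟩)
    have hsub : ∀ E V : Set (T L), dn E ⊆ V → E ⊆ V ∪ E ∩ R (n + 1) := by
      intro E V hEV x hx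
      by_cases h : x ∈ R (n + 1)
      · exact Or.inr ⟨hx, h⟩
      · exact Or.inl (hEV ((hdn _ _).2 (Or.inl ⟨hx, h⟩)))
    have hnot : ∀ x ∈ V₁ ∪ V₂, x ∉ R (n + 1) := by
      intro x hx h
      obtain ⟨m, hm, h1⟩ := hVr x hx
      have := rank_unique h h1
      omega
    refine ⟨V₁ ∪ E₁ ∩ R (n + 1), V₂ ∪ E₂ ∩ R (n + 1), hsub _ _ h1, hsub _ _ h2,
      hop _ _ subset_union_left h1 ho1, hop _ _ subset_union_right h2 ho2, ?_, ?_⟩
    · rw [Set.disjoint_left]
      rintro x (hx | hx) (hy | hy)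
      · exact Set.disjoint_left.1 hV hx hy
      · exact hnot x (Or.inl hx) hy.2
      · exact hnot x (Or.inr hy) hx.2
      · exact Set.disjoint_left.1 hd hx.1 hy.1
    · rintro x ((hx | hx) | (hx | hx))
      · obtain ⟨m, hm, h⟩ := hVr x (Or.inl hx)
        exact ⟨m, by omega, h⟩
      · exact ⟨n + 1, le_rfl, hx.2⟩
      · obtain ⟨m, hm, h⟩ := hVr x (Or.inr hx)
        exact ⟨m, by omega, h⟩
      · exact ⟨n + 1, le_rfl, hx.2⟩

theorem separate_points {n m : ℕ} {z z' : T L} (hz : z ∈ R n) (hz' : z' ∈ R m) (hne : z ≠ z') :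
    ∃ V V' : Set (T L), z ∈ V ∧ z' ∈ V' ∧ Op V ∧ Op V' ∧ Disjoint V V' := by
  have hΦ : {D : Ultrafilter I | Sum.inl D ∈ lev z ++ lev z'}.Finite :=
    (List.finite_toSet (lev z ++ lev z')).preimage Sum.inl_injective.injOn
  obtain ⟨V, V', h1, h2, h3, h4, h5, -⟩ := separate hΦ (n + m) {z} {z'}
    (disjoint_singleton.2 hne)
    (((Cardinal.le_aleph0_iff_set_countable.2 (Set.toFinite _).countable)).trans
      (Cardinal.aleph0_le_aleph 1))
    (by
      rintro x (rfl | rfl)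
      · exact ⟨n, by omega, hz⟩
      · exact ⟨m, by omega, hz'⟩)
    ((Set.toFinite _).countable)
    (by
      rintro x (rfl | rfl) D hD
      · exact List.mem_append_left _ hD
      · exact List.mem_append_right _ hD)
  exact ⟨V, V', h1 rfl, h2 rfl, h3, h4, h5⟩

end Pool.Agent.MP_f2a227_gt.H71
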