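import Pool.Agent.MP_f2a227_gt.H71.Skel

/-!
The space: basic neighbourhoods, the Hausdorff property, the character and the wide closures.
-/

namespace Pool.Agent.MP_f2a227_gt.H71

open Cardinal Set

variable {L : Type}

/-- Extensions of a pattern that avoid the levels in `a`. -/
def G (a : Finset Lev) (p : List (Act L)) : Set (List (Act L)) :=
  {q | ∃ s, q = p ++ s ∧ ∀ e ∈ s, e.1 ∉ a}

/-- The wide part of a limit point. -/
def W (u : T L) (a : Finset Lev) : Set (List (Act L)) :=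
  {q | ∃ s b t, q = s ++ (lev u, u, b) :: t ∧ a ⊆ b ∧ ∀ e ∈ s, lev u ∉ e.2.2}

/-- Basic open sets. -/
def N (V : Set (T L)) (a : Finset Lev) : Set (T L) :=
  V ∪ {x | ∃ q, x = T.pat q ∧
    ((∃ p, T.pat p ∈ V ∧ q ∈ G a p) ∨ ∃ u ∈ V, IsLim u ∧ q ∈ W u a)}

theorem self_mem_G (a : Finset Lev) (p : List (Act L)) : p ∈ G a p :=
  ⟨[], by simp, by simp⟩

theorem G_anti {a a' : Finset Lev} (h : a ⊆ a') (p : List (Act L)) : G a' p ⊆ G a p :=
  fun _ ⟨s, h1, h2⟩ => ⟨s, h1, fun e he hm => h2 e he (h hm)⟩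

theorem W_anti {a a' : Finset Lev} (h : a ⊆ a') (u : T L) : W u a' ⊆ W u a :=
  fun _ ⟨s, b, t, h1, h2, h3⟩ => ⟨s, b, t, h1, h.trans h2, h3⟩

theorem N_mono {V V' : Set (T L)} {a a' : Finset Lev} (hV : V ⊆ V') (h : a' ⊆ a) :
    N V a ⊆ N V' a' := by
  rintro x (hx | ⟨q, rfl, ⟨p, hp, hq⟩ | ⟨u, hu, hl, hq⟩⟩)
  · exact Or.inl (hV hx)
  · exact Or.inr ⟨q, rfl, Or.inl ⟨p, hV hp, G_anti h p hq⟩⟩
  · exact Or.inr ⟨q, rfl, Or.inr ⟨u, hV hu, hl, W_anti h u hq⟩⟩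

theorem G_trans {a : Finset Lev} {p q : List (Act L)} (h : q ∈ G a p) : G a q ⊆ G a p := by
  obtain ⟨s, rfl, hs⟩ := h
  rintro _ ⟨t, rfl, ht⟩
  refine ⟨s ++ t, by simp, fun e he => ?_⟩
  rcases List.mem_append.1 he with h | h
  · exact hs e h
  · exact ht e h

theorem G_subset_W {a c : Finset Lev} {u : T L} {q : List (Act L)} (h : q ∈ W u a) :
    G c q ⊆ W u a := by
  obtain ⟨s, b, t, rfl, h2, h3⟩ := h
  rintro _ ⟨r, rfl, -⟩
  exact ⟨s, b, t ++ r, by simp, h2, h3⟩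

theorem mem_N_singleton {a : Finset Lev} {q : List (Act L)} {x : T L}
    (h : x ∈ N {T.pat q} a) : ∃ r ∈ G a q, x = T.pat r := by
  rcases h with h | ⟨r, rfl, ⟨p, hp, hr⟩ | ⟨u, hu, ⟨f, D, s, hl⟩, -⟩⟩
  · exact ⟨q, self_mem_G a q, h⟩
  · cases pat_inj hp
    exact ⟨r, hr, rfl⟩
  · rw [hl] at hu
    cases hu

theorem N_nbhd {V : Set (T L)} (hV : Op V) (a : Finset Lev) {x : T L} (hx : x ∈ N V a) :
    ∃ V', Op V' ∧ x ∈ V' ∧ N V' a ⊆ N V a := by
  rcases hx with hx | ⟨q, rfl, h⟩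
  · exact ⟨V, hV, hx, subset_rfl⟩
  · refine ⟨{T.pat q}, op_singleton q, rfl, fun y hy => ?_⟩
    obtain ⟨r, hr, rfl⟩ := mem_N_singleton hy
    rcases h with ⟨p, hp, hq⟩ | ⟨u, hu, hl, hq⟩
    · exact Or.inr ⟨r, rfl, Or.inl ⟨p, hp, G_trans hq hr⟩⟩
    · exact Or.inr ⟨r, rfl, Or.inr ⟨u, hu, hl, G_subset_W hq hr⟩⟩

theorem GG_aux {a : Finset Lev} {p x s' : List (Act L)} (hx : x ≠ [])
    (h : lastLev (p ++ x) ∈ a) (hs : ∀ e ∈ x ++ s', e.1 ∉ a) : False := by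
  obtain ⟨y, e, rfl⟩ := List.eq_nil_or_concat' x |>.resolve_left hx
  rw [← List.append_assoc, lastLev_concat] at h
  exact hs e (by simp) h

theorem GG {a : Finset Lev} {p p' q : List (Act L)} (hne : p ≠ p') (h : lastLev p ∈ a)
    (h' : lastLev p' ∈ a) (hq : q ∈ G a p) (hq' : q ∈ G a p') : False := by
  obtain ⟨s, rfl, hs⟩ := hq
  obtain ⟨s', he, hs'⟩ := hq'
  rcases List.append_eq_append_iff.1 he with ⟨x, rfl, rfl⟩ | ⟨x, rfl, rfl⟩
  · exact GG_aux (fun hx => hne (by simp [hx])) h' hs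
  · exact GG_aux (fun hx => hne (by simp [hx])) h hs'

theorem GW {a : Finset Lev} {p q : List (Act L)} {u : T L} (hu : lev u ∈ a)
    (hp : sz p < a.card) (hq : q ∈ G a p) (hq' : q ∈ W u a) : False := by
  obtain ⟨s, rfl, hs⟩ := hq
  obtain ⟨s', b, t, he, hb, -⟩ := hq'
  have hm : (lev u, u, b) ∈ p ++ s := by rw [he]; simp
  rcases List.mem_append.1 hm with h | h
  · have h1 : b.card ≤ sz p := card_le_sz h
    have h2 := Finset.card_le_card hb
    omega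
  · exact hs _ h hu

theorem WW {a : Finset Lev} {q : List (Act L)} {u u' : T L} (hne : u ≠ u') (hu : lev u ∈ a)
    (hu' : lev u' ∈ a) (hq : q ∈ W u a) (hq' : q ∈ W u' a) : False := by
  obtain ⟨s, b, t, rfl, hb, hs⟩ := hq
  obtain ⟨s', b', t', he, hb', hs'⟩ := hq'
  rcases List.append_eq_append_iff.1 he with ⟨x, rfl, h⟩ | ⟨x, rfl, h⟩
  · cases x with
    | nil =>
      simp only [List.nil_append, List.cons.injEq, Prod.mk.injEq] at h
      exact hne h.1.2.1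
    | cons e x =>
      simp only [List.cons_append, List.cons.injEq] at h
      exact hs' (lev u, u, b) (by simp [h.1]) (hb hu')
  · cases x with
    | nil =>
      simp only [List.nil_append, List.cons.injEq, Prod.mk.injEq] at h
      exact hne h.1.2.1.symm
    | cons e x =>
      simp only [List.cons_append, List.cons.injEq] at h
      exact hs (lev u', u', b') (by simp [h.1]) (hb' hu)

theorem N_disjoint {V V' : Set (T L)} {a : Finset Lev} (hd : Disjoint V V')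
    (h1 : ∀ x ∈ V ∪ V', lev x ∈ a)
    (h2 : ∀ p, T.pat p ∈ V ∪ V' → lastLev p ∈ a ∧ sz p < a.card) :
    Disjoint (N V a) (N V' a) := by
  have key : ∀ (U : Set (T L)) (q : List (Act L)), T.pat q ∈ N U a →
      (∃ p, T.pat p ∈ U ∧ q ∈ G a p) ∨ ∃ u ∈ U, IsLim u ∧ q ∈ W u a := by
    rintro U q (h | ⟨r, hr, h⟩)
    · exact Or.inl ⟨q, h, self_mem_G a q⟩
    · cases pat_inj hr
      exact h
  have hpat : ∀ q, T.pat q ∈ N V a → T.pat q ∈ N V' a → False := by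
    intro q hq hq'
    rcases key _ _ hq with ⟨p, hp, hq⟩ | ⟨u, hu, -, hq⟩ <;>
      rcases key _ _ hq' with ⟨p', hp', hq'⟩ | ⟨u', hu', -, hq'⟩
    · refine GG ?_ (h2 p (Or.inl hp)).1 (h2 p' (Or.inr hp')).1 hq hq'
      rintro rfl
      exact Set.disjoint_left.1 hd hp hp'
    · exact GW (h1 u' (Or.inr hu')) (h2 p (Or.inl hp)).2 hq hq'
    · exact GW (h1 u (Or.inl hu)) (h2 p' (Or.inr hp')).2 hq' hq
    · refine WW ?_ (h1 u (Or.inl hu)) (h1 u' (Or.inr hu')) hq hq'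
      rintro rfl
      exact Set.disjoint_left.1 hd hu hu'
  rw [Set.disjoint_left]
  intro x hx hx'
  rcases hx with hx | ⟨q, rfl, h⟩
  · rcases hx' with hx' | ⟨q, rfl, h⟩
    · exact Set.disjoint_left.1 hd hx hx'
    · exact hpat q (Or.inl hx) (Or.inr ⟨q, rfl, h⟩)
  · exact hpat q (Or.inr ⟨q, rfl, h⟩) hx'

/-- The space. -/
def X (L : Type) : Type := {x : T L // ∃ n, x ∈ R n}

instance : TopologicalSpace (X L) where
  IsOpen U := ∀ x ∈ U, ∃ V a, Op V ∧ x.1 ∈ V ∧ ∀ y : X L, y.1 ∈ N V a → y ∈ U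
  isOpen_univ := fun _ _ =>
    ⟨univ, ∅, fun _ _ _ _ => Filter.univ_mem, mem_univ _, fun _ _ => mem_univ _⟩
  isOpen_inter := by
    classical
    intro U U' hU hU' x hx
    obtain ⟨V, a, h1, h2, h3⟩ := hU x hx.1
    obtain ⟨V', a', h1', h2', h3'⟩ := hU' x hx.2
    exact ⟨V ∩ V', a ∪ a', h1.inter h1', ⟨h2, h2'⟩, fun y hy =>
      ⟨h3 y (N_mono inter_subset_left Finset.subset_union_left hy),
        h3' y (N_mono inter_subset_right Finset.subset_union_right hy)⟩⟩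
  isOpen_sUnion := by
    rintro S hS x ⟨U, hU, hx⟩
    obtain ⟨V, a, h1, h2, h3⟩ := hS U hU x hx
    exact ⟨V, a, h1, h2, fun y hy => ⟨U, hU, h3 y hy⟩⟩

theorem isOpen_iff {U : Set (X L)} :
    IsOpen U ↔ ∀ x ∈ U, ∃ V a, Op V ∧ x.1 ∈ V ∧ ∀ y : X L, y.1 ∈ N V a → y ∈ U := Iff.rfl

theorem isOpen_N {V : Set (T L)} (hV : Op V) (a : Finset Lev) :
    IsOpen {y : X L | y.1 ∈ N V a} := by
  intro x hx
  obtain ⟨V', h1, h2, h3⟩ := N_nbhd hV a hx
  exact ⟨V', a, h1, h2, fun y hy => h3 hy⟩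

theorem exists_finset (l l' : Lev) : ∃ a : Finset Lev, (∀ s, s <:+ l ∨ s <:+ l' → s ∈ a) ∧
    ∀ t : ℕ, Sum.inr t ∈ l ++ l' → t < a.card := by
  classical
  have hfin : {t : ℕ | Sum.inr t ∈ l ++ l'}.Finite :=
    (List.finite_toSet (l ++ l')).preimage Sum.inr_injective.injOn
  obtain ⟨M, hM⟩ := hfin.bddAbove
  obtain ⟨c, hc⟩ := Infinite.exists_subset_card_eq Lev (M + 1)
  refine ⟨c ∪ (l.tails ++ l'.tails).toFinset, ?_, ?_⟩
  · intro s hs
    refine Finset.mem_union_right _ ?_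
    simpa [List.mem_tails] using hs
  · intro t ht
    have h1 : t ≤ M := hM ht
    have h2 := Finset.card_le_card
      (Finset.subset_union_left (s₁ := c) (s₂ := (l.tails ++ l'.tails).toFinset))
    omega

instance : T2Space (X L) := by
  refine ⟨fun z z' hne => ?_⟩
  obtain ⟨n, hn⟩ := z.2
  obtain ⟨m, hm⟩ := z'.2
  obtain ⟨V, V', h1, h2, h3, h4, h5⟩ := separate_points hn hm fun h => hne (Subtype.ext h)
  obtain ⟨B, hB, hBo, -, hBl⟩ := exists_below n _ hn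
  obtain ⟨B', hB', hBo', -, hBl'⟩ := exists_below m _ hm
  obtain ⟨a, ha, hat⟩ := exists_finset (lev z.1) (lev z'.1)
  have hl : ∀ x ∈ V ∩ B ∪ V' ∩ B', lev x <:+ lev z.1 ∨ lev x <:+ lev z'.1 := by
    rintro x (hx | hx)
    · exact Or.inl (hBl x hx.2)
    · exact Or.inr (hBl' x hx.2)
  have hd := N_disjoint (a := a) (h5.mono (inter_subset_left (t := B)) (inter_subset_left (t := B')))
    (fun x hx => ha _ (hl x hx)) (fun p hp => by
      have h := hl _ hp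
      rw [lev_pat] at h
      refine ⟨ha _ (h.imp (List.suffix_cons _ _).trans (List.suffix_cons _ _).trans), hat _ ?_⟩
      rcases h with h | h
      · exact List.mem_append_left _ (h.subset List.mem_cons_self)
      · exact List.mem_append_right _ (h.subset List.mem_cons_self))
  refine ⟨_, _, isOpen_N (h3.inter hBo) a, isOpen_N (h4.inter hBo') a, Or.inl ⟨h1, hB⟩,
    Or.inl ⟨h2, hB'⟩, ?_⟩
  rw [Set.disjoint_left]
  exact fun x hx hx' => Set.disjoint_left.1 hd hx hx'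

/-- A pattern as a point of the space. -/
def pt (q : List (Act L)) : X L := ⟨T.pat q, 0, q, rfl⟩

theorem exists_base (x : X L) : ∃ B : Set (Set (X L)), (∀ U ∈ B, IsOpen U ∧ x ∈ U) ∧
    (∀ U, IsOpen U → x ∈ U → ∃ U' ∈ B, U' ⊆ U) ∧ #B ≤ 2 ^ ℵ₁ * #(Finset Lev) := by
  obtain ⟨n, hn⟩ := x.2
  obtain ⟨B, hB, hBo, hBc, -⟩ := exists_below n _ hn
  let φ : Set B × Finset Lev → Set (X L) := fun p => {y | y.1 ∈ N (Subtype.val '' p.1) p.2}
  refine ⟨φ '' {p | Op (Subtype.val '' p.1) ∧ x.1 ∈ Subtype.val '' p.1}, ?_, ?_, ?_⟩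
  · rintro _ ⟨p, hp, rfl⟩
    exact ⟨isOpen_N hp.1 _, Or.inl hp.2⟩
  · intro U hU hx
    obtain ⟨V, a, h1, h2, h3⟩ := hU x hx
    have he : Subtype.val '' (Subtype.val ⁻¹' V : Set B) = B ∩ V :=
      Subtype.image_preimage_coe _ _
    refine ⟨_, ⟨(Subtype.val ⁻¹' V, a), ⟨?_, ?_⟩, rfl⟩, fun y hy => h3 y ?_⟩
    · rw [he]
      exact hBo.inter h1
    · rw [he]
      exact ⟨hB, h2⟩
    · exact N_mono (by rw [he]; exact inter_subset_right) subset_rfl hy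
  · refine Cardinal.mk_image_le.trans ((Cardinal.mk_set_le _).trans ?_)
    rw [Cardinal.mk_prod, Cardinal.lift_id, Cardinal.lift_id, Cardinal.mk_set]
    exact mul_le_mul_left (Cardinal.power_le_power_left two_ne_zero hBc) _

theorem mk_le_X : #L ≤ #(X L) := by
  refine Cardinal.mk_le_of_injective (f := fun l => pt [([], T.atom l, ∅)]) ?_
  intro l l' h
  have h1 := pat_inj (congrArg Subtype.val h)
  simp only [List.cons.injEq, Prod.mk.injEq, T.atom.injEq] at h1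
  exact h1.1.2.1

theorem wide {U : Set (X L)} (hU : IsOpen U) (hne : U.Nonempty) :
    ∃ c : Finset Lev, ∀ u : X L, IsLim u.1 → lev u.1 ∉ c → ∀ U', IsOpen U' → u ∈ U' →
      (U ∩ U').Nonempty := by
  classical
  obtain ⟨x, hx⟩ := hne
  obtain ⟨V, a, h1, h2, h3⟩ := hU x hx
  obtain ⟨n, hn⟩ := x.2
  obtain ⟨p, hp⟩ := exists_pat_mem h1 n _ hn h2
  refine ⟨a ∪ p.toFinset.biUnion fun e => e.2.2, fun u hu hc U' hU' huU => ?_⟩
  obtain ⟨V', a', -, h2', h3'⟩ := hU' u huU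
  rw [Finset.mem_union, not_or] at hc
  refine ⟨pt (p ++ [(lev u.1, u.1, a')]), h3 _ ?_, h3' _ ?_⟩
  · refine Or.inr ⟨_, rfl, Or.inl ⟨p, hp, _, rfl, ?_⟩⟩
    intro e he
    rw [List.mem_singleton.1 he]
    exact hc.1
  · refine Or.inr ⟨_, rfl, Or.inr ⟨u.1, h2', hu, p, a', [], rfl, subset_rfl, ?_⟩⟩
    intro e he hm
    exact hc.2 (Finset.mem_biUnion.2 ⟨e, List.mem_toFinset.2 he, hm⟩)

theorem dense_of_infinite {U : Set (X L)} (hU : IsOpen U)
    (h : {s | ∃ u ∈ U, IsLim u.1 ∧ lev u.1 = s}.Infinite) : Dense U := by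
  rw [dense_iff_inter_open]
  intro U' hU' hne
  obtain ⟨c, hc⟩ := wide hU' hne
  obtain ⟨s, ⟨u, hu, hl, rfl⟩, hs⟩ := h.exists_notMem_finset c
  exact hc u hl hs U hU hu

end Pool.Agent.MP_f2a227_gt.H71
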